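import Pool.Agent.Run7.h309.JH.JFin

/-!
# Several hypergeometric motives at the same fibre: functional relations and relations between the periods of almost all
# fibres come from the product of the symplectic groups

Let `β_a = (β_{a,1}, …, β_{a,m_a})`, `1 ≤ a ≤ q`, be finite families of rational numbers which are not integers and
`θ = z d/dz`. The hypergeometric operators `D_a = θ^(2 m_a) - z ∏_j (θ - β_{a,j}) (θ + β_{a,j})` have maximally unipotent
monodromy at `z = 0`. For `m_a = 1` and `β_a = j / N` the solutions are periods of the curves `y^N = x (1 - x)^(N-1) (1 - z x)`,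
whose Jacobians have real multiplication by the real subfields of cyclotomic fields, for `m_a = 2` one gets the operators
of the fourteen hypergeometric families of Calabi-Yau threefolds (up to contiguity). We consider all the families at the
same point `z`, and prove that the only relations between the periods of all of them are those from the symplectic groups,
provided that the sets of the exponents at infinity modulo `ℤ` are different for different operators of the same order: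
this holds for the functions (with `z` and `log z`), and, in bounded degree, for the values at almost all tuples of points
`z = 1 / t_i`.
-/

set_option autoImplicit false

open PowerSeries Pool.Agent.Y119.HZ Run7.h309.JH

namespace Pool.Agent.Results.MP_caab05_ag.JointHypergeometric

/-- the power series `k + ε` in the variable `ε` -/
noncomputable def shift (k : ℕ) : PowerSeries ℚ := C (k : ℚ) + X

/-- `a_k(ε) = ∏_{l < k} ∏_j ((l + ε)^2 - β_j^2) / (l + 1 + ε)^(2m)`. The series `∑_k a_k(ε) z^(k + ε)` solves the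
equation `(θ^n - z ∏_j (θ^2 - β_j^2)) f = ε^n z^ε`, hence its coefficients `f_j` at `ε^j` with `j < n = 2m` are
solutions of the homogeneous equation. -/
noncomputable def frob {m : ℕ} (β : Fin m → ℚ) (k : ℕ) : PowerSeries ℚ :=
  ∏ l ∈ Finset.range k, ((∏ j, (shift l ^ 2 - C (β j ^ 2))) * ((shift (l + 1))⁻¹) ^ (2 * m))

/-- The matrix with the entries `(θ^i f_j)(x)`, where `f_j(x)` is the coefficient of `ε^j` in the series
`∑_k a_k(ε) x^(k + ε)`, `x^ε = ∑_l (log x)^l ε^l / l!`. -/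
noncomputable def Y {m : ℕ} (β : Fin m → ℚ) (x : ℝ) : Matrix (Fin (2 * m)) (Fin (2 * m)) ℂ :=
  Matrix.of fun i j => ∑ l ∈ Finset.range ((j : ℕ) + 1), ((Real.log x ^ l / l.factorial : ℝ) : ℂ) *
    ∑' k : ℕ, ((coeff ((j : ℕ) - l) (shift k ^ (i : ℕ) * frob β k) : ℚ) : ℂ) * (x : ℂ) ^ k

/-- the polynomial `∏_j (x^2 - β_j^2)` -/
noncomputable def poly {m : ℕ} (β : Fin m → ℚ) : Polynomial ℚ := ∏ j, (Polynomial.X ^ 2 - Polynomial.C (β j ^ 2))

/-- The matrix of the intersection form: the entry `(i, j)` is `(-1)^i q_{i+j+1-n}` for `i + j + 1 ≥ n` and `0`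
otherwise, where `q_l` are the coefficients of `∏_j (x^2 - β_j^2)`. -/
noncomputable def J {m : ℕ} (β : Fin m → ℚ) : Matrix (Fin (2 * m)) (Fin (2 * m)) ℂ :=
  Matrix.of fun i j => if 2 * m ≤ (i : ℕ) + j + 1 then (((-1) ^ (i : ℕ) * (poly β).coeff (i + j + 1 - 2 * m) : ℚ) : ℂ) else 0

/-- the symplectic group of the form `J` -/
def Sp {m : ℕ} (β : Fin m → ℚ) : Set (Matrix (Fin (2 * m)) (Fin (2 * m)) ℂ) := {g | g.transpose * J β * g = J β}

/-- the numbers which are congruent to one of the exponents `± β_j` modulo `ℤ` -/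
def exponents {m : ℕ} (β : Fin m → ℚ) : Set ℚ := {s | ∃ (j : Fin m) (z : ℤ), s = β j + z ∨ s = -β j + z}

/-- the point with the coordinates `z`, `l` and the entries of the matrices `X_a` -/
def point₀ {q : ℕ} {m : Fin q → ℕ} (z l : ℂ) (X : ∀ a, Matrix (Fin (2 * m a)) (Fin (2 * m a)) ℂ) :
    Option (Option (Σ a : Fin q, Fin (2 * m a) × Fin (2 * m a))) → ℂ
  | none => z
  | some none => l
  | some (some ⟨a, p⟩) => X a p.1 p.2

/-- the point with the coordinates `l_i` and the entries of the matrices `X_{i,a}` -/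
def point {k q : ℕ} {m : Fin q → ℕ} (l : Fin k → ℂ) (X : Fin k → ∀ a, Matrix (Fin (2 * m a)) (Fin (2 * m a)) ℂ) :
    Fin k × Option (Σ a : Fin q, Fin (2 * m a) × Fin (2 * m a)) → ℂ
  | (i, none) => l i
  | (i, some ⟨a, p⟩) => X i a p.1 p.2

/-- There is a polynomial relation of degree `≤ δ` with coefficients in `V` between the numbers `log t_i` and the
entries of all the matrices `Y_a(1 / t_i) Ω_{i,a}` which does not vanish identically on `ℂ^k × ∏_{i,a} Sp(J_a) Ω_{i,a}`. -/
def Exceptional (δ : ℕ) (V : Submodule ℚ ℂ) {k q : ℕ} {m : Fin q → ℕ} (β : ∀ a, Fin (m a) → ℚ)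
    (Ω : Fin k → ∀ a, Matrix (Fin (2 * m a)) (Fin (2 * m a)) ℂ) (t : Fin k → ℕ) : Prop :=
  ∃ P : MvPolynomial (Fin k × Option (Σ a : Fin q, Fin (2 * m a) × Fin (2 * m a))) ℂ,
    P.totalDegree ≤ δ ∧ (∀ s, P.coeff s ∈ V) ∧
    MvPolynomial.aeval (point (fun i => ((Real.log (t i) : ℝ) : ℂ)) fun i a => Y (β a) (1 / t i) * Ω i a) P = 0 ∧
    ∃ (l : Fin k → ℂ) (g : Fin k → ∀ a, Matrix (Fin (2 * m a)) (Fin (2 * m a)) ℂ), (∀ i a, g i a ∈ Sp (β a)) ∧
      MvPolynomial.aeval (point l fun i a => g i a * Ω i a) P ≠ 0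

theorem shift_eq (k : ℕ) : shift k = Pool.Agent.Y119.HY.kx k := rfl

theorem frob_eq {m : ℕ} (β : Fin m → ℚ) (k : ℕ) : frob β k = Pool.Agent.Y119.HY.aq (2 * m) (Pool.Agent.Y119.HY.QB β) k := by
  unfold frob Pool.Agent.Y119.HY.aq
  refine Finset.prod_congr rfl fun l _ => ?_
  congr 1
  unfold Pool.Agent.Y119.HY.QB
  rw [map_prod]
  refine Finset.prod_congr rfl fun j _ => ?_
  simp only [map_sub, map_pow, Polynomial.aeval_X, Polynomial.aeval_C]
  rfl

theorem J_eq {m : ℕ} (β : Fin m → ℚ) :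
    J β = Pool.Agent.Y119.HY.cm (Pool.Agent.Y119.HY.Jm (2 * m) (Pool.Agent.Y119.HY.QB β)) := by
  ext i j
  rw [Pool.Agent.Y119.HY.cm_apply]
  unfold J Pool.Agent.Y119.HY.Jm
  rw [Matrix.of_apply, Matrix.of_apply]
  split_ifs
  · rfl
  · simp

theorem Y_eq {m : ℕ} (β : Fin m → ℚ) {x : ℝ} (hx : 0 < x) : Y β x =
    Pool.Agent.Y119.HY.Yf (Pool.Agent.Y119.HY.cm (Pool.Agent.Y119.HY.Am (2 * m)))
      (Pool.Agent.Y119.HY.Hc (2 * m) (Pool.Agent.Y119.HY.QB β)) (x : ℂ) := by
  ext i j
  unfold Y Pool.Agent.Y119.HY.Yf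
  rw [Matrix.of_apply, Matrix.mul_apply, ← Complex.ofReal_log hx.le]
  have hE : ∀ c : Fin (2 * m), Pool.Agent.Y119.HY.E (Pool.Agent.Y119.HY.cm (Pool.Agent.Y119.HY.Am (2 * m)))
      ((Real.log x : ℝ) : ℂ) c j = ∑ l ∈ Finset.range (2 * m),
        if (j : ℕ) = c + l then ((Real.log x ^ l / l.factorial : ℝ) : ℂ) else 0 := by
    intro c
    unfold Pool.Agent.Y119.HY.E
    rw [Matrix.sum_apply]
    refine Finset.sum_congr rfl fun l _ => ?_
    rw [Matrix.smul_apply, ← Pool.Agent.Y119.HY.cm_pow, Pool.Agent.Y119.HY.cm_apply, Pool.Agent.Y119.HY.Am_pow, smul_eq_mul]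
    split_ifs
    · push_cast
      ring
    · simp
  simp only [hE, Finset.mul_sum]
  rw [Finset.sum_comm]
  have hsub : Finset.range ((j : ℕ) + 1) ⊆ Finset.range (2 * m) := by
    intro l hl
    rw [Finset.mem_range] at hl ⊢
    have := j.2
    omega
  refine Finset.sum_subset_zero_on_sdiff hsub (fun l hl => ?_) fun l hl => ?_
  · rw [Finset.mem_sdiff, Finset.mem_range, Finset.mem_range] at hl
    refine Finset.sum_eq_zero fun c _ => ?_
    rw [if_neg (by omega), mul_zero]
  · rw [Finset.mem_range] at hl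
    have hj := j.2
    rw [Finset.sum_eq_single (⟨(j : ℕ) - l, by omega⟩ : Fin (2 * m))]
    · rw [if_pos (by simp only; omega), mul_comm]
      congr 1
      unfold Pool.Agent.Y119.HY.Hf Pool.Agent.Y119.HY.ps
      rw [Matrix.of_apply]
      refine tsum_congr fun k => ?_
      show _ = ((Pool.Agent.Y119.HY.hq (2 * m) (Pool.Agent.Y119.HY.QB β) k i ((j : ℕ) - l) : ℚ) : ℂ) * (x : ℂ) ^ k
      rw [frob_eq, shift_eq]
      unfold Pool.Agent.Y119.HY.hq
      rfl
    · intro c _ hc
      rw [if_neg, mul_zero]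
      intro h
      apply hc
      apply Fin.ext
      simp only
      omega
    · intro h
      exact absurd (Finset.mem_univ _) h

theorem Yt_eq' {m : ℕ} (β : Fin m → ℚ) {t : ℕ} (ht : 1 ≤ t) :
    Y β (1 / t) = Yt (2 * m) (Pool.Agent.Y119.HY.QB β) t := by
  have ht0 : (0 : ℝ) < t := by exact_mod_cast ht
  rw [Y_eq β (by positivity), Yt_eq ht]

theorem point_eq {k q : ℕ} {m : Fin q → ℕ} (l : Fin k → ℂ)
    (X : Fin k → ∀ a, Matrix (Fin (2 * m a)) (Fin (2 * m a)) ℂ) :
    point l X = pu (n := fun a => 2 * m a) l X := by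
  funext v
  obtain ⟨i, _ | ⟨a, p⟩⟩ := v
  · rfl
  · rfl

theorem point₀_eq {q : ℕ} {m : Fin q → ℕ} (z l : ℂ) (X : ∀ a, Matrix (Fin (2 * m a)) (Fin (2 * m a)) ℂ) :
    point₀ z l X = ptj (n := fun a => 2 * m a) z l X := by
  funext v
  rcases v with _ | _ | ⟨a, p⟩
  · rfl
  · rfl
  · rfl

/-- roots of the polynomial -/
theorem QB_root {m : ℕ} (β : Fin m → ℚ) (s : ℚ) :
    (Pool.Agent.Y119.HY.QB β).eval s = 0 ↔ ∃ j, s = β j ∨ s = -β j := by
  unfold Pool.Agent.Y119.HY.QB
  rw [Polynomial.eval_prod, Finset.prod_eq_zero_iff]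
  constructor
  · rintro ⟨j, -, hj⟩
    refine ⟨j, ?_⟩
    rw [Polynomial.eval_sub, Polynomial.eval_pow, Polynomial.eval_X, Polynomial.eval_C, sub_eq_zero] at hj
    exact sq_eq_sq_iff_eq_or_eq_neg.1 hj
  · rintro ⟨j, hj⟩
    refine ⟨j, Finset.mem_univ _, ?_⟩
    rw [Polynomial.eval_sub, Polynomial.eval_pow, Polynomial.eval_X, Polynomial.eval_C, sub_eq_zero]
    exact sq_eq_sq_iff_eq_or_eq_neg.2 hj

theorem half_diff {m m' : ℕ} {β : Fin m → ℚ} {β' : Fin m' → ℚ} (h : ¬ exponents β ⊆ exponents β') :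
    ∃ s : ℚ, (Pool.Agent.Y119.HY.QB β).eval s = 0 ∧ ∀ z : ℤ, (Pool.Agent.Y119.HY.QB β').eval (s + z) ≠ 0 := by
  rw [Set.not_subset] at h
  obtain ⟨s, ⟨j, z₀, hs⟩, hno⟩ := h
  have key : ∀ s' : ℚ, s = s' + z₀ → ∀ z : ℤ, (Pool.Agent.Y119.HY.QB β').eval (s' + z) ≠ 0 := by
    intro s' hs' z h0
    obtain ⟨i, hi⟩ := (QB_root β' _).1 h0
    apply hno
    refine ⟨i, z₀ - z, ?_⟩
    push_cast
    rcases hi with hi | hi
    · left
      linarith
    · right
      linarith
  rcases hs with hs | hs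
  · exact ⟨β j, (QB_root β _).2 ⟨j, Or.inl rfl⟩, key _ hs⟩
  · exact ⟨-β j, (QB_root β _).2 ⟨j, Or.inr rfl⟩, key _ hs⟩

/-- Let `β_a`, `1 ≤ a ≤ q`, be finite non-empty families of rational numbers which are not integers such that for
`a ≠ b` with the same number `m_a = m_b` of elements the sets `(± β_a) + ℤ` and `(± β_b) + ℤ` are different. Then the
forms `J_a` are alternating and non-degenerate, the matrices `Y_a(x)` lie in the symplectic groups `Sp(J_a)` for
`0 < x < 1`, and: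

* every polynomial `P` with complex coefficients with `P(x, log x, Y_1(x), …, Y_q(x)) = 0` for all `0 < x < 1` vanishes
  identically on `ℂ × ℂ × ∏_a Sp(J_a)`;
* for all `k`, `δ` and `D` there are `c > 0` and `C` such that for every `ℚ`-space `V` of complex numbers of dimension
  `≤ D`, all complex matrices `Ω_{i,a}` and every box `∏_i (x_i, x_i + N]` with `x_i ≥ 1` the following holds for all but
  `C N^(k-1) ∑_i (1 + N / (x_i + N)^c)` integral points `t` of the box: every polynomial relation of degree `≤ δ` with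
  coefficients in `V` between the numbers `log t_i` and the entries of all the matrices `Y_a(1 / t_i) Ω_{i,a}`
  (`1 ≤ i ≤ k`, `1 ≤ a ≤ q`) vanishes identically on `ℂ^k × ∏_{i,a} Sp(J_a) Ω_{i,a}`. -/
theorem result (q : ℕ) (m : Fin q → ℕ) (hm : ∀ a, 1 ≤ m a) (β : ∀ a, Fin (m a) → ℚ)
    (hβ : ∀ a j, ∀ z : ℤ, β a j ≠ z) (hsep : ∀ a b, a ≠ b → m a = m b → exponents (β a) ≠ exponents (β b)) :
    (∀ a, (J (β a)).transpose = -J (β a) ∧ (J (β a)).det ≠ 0 ∧ ∀ x : ℝ, 0 < x → x < 1 → Y (β a) x ∈ Sp (β a)) ∧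
    (∀ P : MvPolynomial (Option (Option (Σ a : Fin q, Fin (2 * m a) × Fin (2 * m a)))) ℂ,
      (∀ x : ℝ, 0 < x → x < 1 →
        MvPolynomial.aeval (point₀ (x : ℂ) ((Real.log x : ℝ) : ℂ) fun a => Y (β a) x) P = 0) →
      ∀ (z l : ℂ) (g : ∀ a, Matrix (Fin (2 * m a)) (Fin (2 * m a)) ℂ), (∀ a, g a ∈ Sp (β a)) →
        MvPolynomial.aeval (point₀ z l g) P = 0) ∧
    ∀ k δ D : ℕ, ∃ c C : ℝ, 0 < c ∧ ∀ V : Submodule ℚ ℂ, Module.Finite ℚ V → Module.finrank ℚ V ≤ D →
      ∀ (Ω : Fin k → ∀ a, Matrix (Fin (2 * m a)) (Fin (2 * m a)) ℂ) (x : Fin k → ℕ) (N : ℕ), (∀ i, 1 ≤ x i) → 1 ≤ N →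
      (({t : Fin k → ℕ | (∀ i, x i < t i ∧ t i ≤ x i + N) ∧ Exceptional δ V β Ω t}.ncard : ℕ) : ℝ) ≤
        C * (N : ℝ) ^ (k - 1) * ∑ i, (1 + N / ((x i : ℝ) + N) ^ c) := by
  classical
  have hβ' : ∀ a, ∀ j, ∀ l : ℕ, (l : ℚ) + β a j ≠ 0 ∧ (l : ℚ) + -β a j ≠ 0 := by
    intro a j l
    constructor
    · intro h
      apply hβ a j (-(l : ℤ))
      push_cast
      linear_combination h
    · intro h
      apply hβ a j (l : ℤ)
      push_cast
      linear_combination -h
  have hQ := fun a => QD_QB (hm a) (hβ' a)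
  have hdiff : ∀ a b, a ≠ b → 2 * m a = 2 * m b → Diff (Pool.Agent.Y119.HY.QB (β a)) (Pool.Agent.Y119.HY.QB (β b)) := by
    intro a b hab hmab
    have h1 := hsep a b hab (by omega)
    by_cases h2 : exponents (β a) ⊆ exponents (β b)
    · right
      exact half_diff fun h3 => h1 (h2.antisymm h3)
    · left
      exact half_diff h2
  have hSpY : ∀ a, ∀ x : ℝ, 0 < x → x < 1 → (Y (β a) x).transpose * J (β a) * Y (β a) x = J (β a) := by
    intro a x hx hx1
    rw [J_eq, Y_eq (β a) hx]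
    refine Pool.Agent.Y119.HY.self_pair Pool.Agent.Y119.HY.Ac_nil Pool.Agent.Y119.HY.Jc_rel ?_
      (Pool.Agent.Y119.HY.sol_c (hQ a)) (Pool.Agent.Y119.HY.real_mem_Lens hx hx1)
    rw [← Pool.Agent.Y119.HY.cm_transpose, ← Pool.Agent.Y119.HY.cm_mul, ← Pool.Agent.Y119.HY.cm_mul,
      ← Pool.Agent.Y119.HY.cm_add, Bm_rel (hQ a), Pool.Agent.Y119.HY.cm_zero]
  refine ⟨fun a => ⟨?_, ?_, fun x hx hx1 => hSpY a x hx hx1⟩, ?_, fun k δ D => ?_⟩
  · rw [J_eq]
    exact Pool.Agent.Y119.HY.Jc_skew (hQ a)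
  · rw [J_eq]
    exact Pool.Agent.Y119.HY.Jc_det (hQ a)
  · intro P hP z l g hg
    have hae : ∀ f, MvPolynomial.aeval f P = MvPolynomial.eval f P := fun f => by
      rw [← MvPolynomial.coe_aeval_eq_eval]; rfl
    have hrel : P ∈ Relj (Yj (fun a => Pool.Agent.Y119.HY.cm (Pool.Agent.Y119.HY.Am (2 * m a)))
        fun a => Pool.Agent.Y119.HY.Hc (2 * m a) (Pool.Agent.Y119.HY.QB (β a))) := by
      intro x hx hx1
      have h1 := hP x hx hx1
      rw [point₀_eq, Complex.ofReal_log hx.le, hae] at h1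
      unfold evj
      refine (congrArg (fun X => MvPolynomial.eval (ptj (n := fun a => 2 * m a) (x : ℂ) (Complex.log x) X) P) ?_).trans h1
      funext a
      exact (Y_eq (β a) hx).symm
    have hstep : ∀ x : ℝ, 0 < x → x < 1 → evj (n := fun a => 2 * m a) P (x : ℂ) (Complex.log x) g = 0 := by
      intro x hx hx1
      have hinv := fun a => isom_inv (J := J (β a)) (by rw [J_eq]; exact Pool.Agent.Y119.HY.Jc_det (hQ a)) (hSpY a x hx hx1)
      choose W hW1 hW2 hW3 using hinv
      have h1 := hyp_invarj hQ hdiff (fun a => W a * g a) (fun a => by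
        have h2 := isom_mul (hW3 a) (hg a : (g a).transpose * J (β a) * g a = J (β a))
        rw [J_eq] at h2
        exact h2) P hrel x hx hx1
      refine (congrArg (evj (n := fun a => 2 * m a) P (x : ℂ) (Complex.log x)) ?_).trans h1
      funext a
      show g a = Pool.Agent.Y119.HY.Yf _ _ (x : ℂ) * (W a * g a)
      rw [← Y_eq (β a) hx, ← Matrix.mul_assoc, hW1, one_mul]
    -- separation of `z` and `log z`
    have h1 : ∀ w ∈ Metric.ball (0 : ℂ) 1, evpj (n := fun a => 2 * m a) P (Polynomial.C w) Polynomial.X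
        (fun a => (g a).map Polynomial.C) = 0 := by
      refine Pool.Agent.Y119.HY.PA.log_zero (f := fun w => evpj (n := fun a => 2 * m a) P (Polynomial.C w) Polynomial.X
        (fun a => (g a).map Polynomial.C)) ?_ fun y hy hy1 => ?_
      · refine Pool.Agent.Y119.HY.PA.aeval (fun o => ?_) P
        rcases o with _ | _ | x
        · exact Pool.Agent.Y119.HY.PA.ofFun analyticOnNhd_id
        · exact Pool.Agent.Y119.HY.PA.const _
        · exact Pool.Agent.Y119.HY.PA.const _
      · rw [eval_evpj, Polynomial.eval_C, Polynomial.eval_X, Complex.ofReal_log hy.le]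
        simp only [Pool.Agent.Y119.HY.map_C_eval]
        exact hstep y hy hy1
    have h2 : ∀ w ∈ Metric.ball (0 : ℂ) 1, evj (n := fun a => 2 * m a) P w l g = 0 := by
      intro w hw
      have h3 := congrArg (Polynomial.eval l) (h1 w hw)
      rw [eval_evpj, Polynomial.eval_C, Polynomial.eval_X, Polynomial.eval_zero] at h3
      simp only [Pool.Agent.Y119.HY.map_C_eval] at h3
      exact h3
    have h4 : evpj (n := fun a => 2 * m a) P Polynomial.X (Polynomial.C l) (fun a => (g a).map Polynomial.C) = 0 := by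
      refine Polynomial.eq_zero_of_infinite_isRoot _ (Set.Infinite.mono (s := Metric.ball (0 : ℂ) 1) (fun w hw => ?_) ?_)
      · show Polynomial.eval w _ = 0
        rw [eval_evpj, Polynomial.eval_C, Polynomial.eval_X]
        simp only [Pool.Agent.Y119.HY.map_C_eval]
        exact h2 w hw
      · exact infinite_of_mem_nhds (0 : ℂ) (Metric.ball_mem_nhds _ one_pos)
    have h5 := congrArg (Polynomial.eval z) h4
    rw [eval_evpj, Polynomial.eval_C, Polynomial.eval_X, Polynomial.eval_zero] at h5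
    simp only [Pool.Agent.Y119.HY.map_C_eval] at h5
    rw [point₀_eq, hae]
    exact h5
  obtain ⟨c, C, hc, -, hmain⟩ := tuples_joint k δ D (fun a => 2 * m a) (fun a => Pool.Agent.Y119.HY.QB (β a)) hQ hdiff
    (fun a i j => Pool.Agent.Y119.HY.sdc_hps (hβ' a) (hQ a) i j)
  refine ⟨c, C, hc, ?_⟩
  intro V hVf hV Ω x N hx hN
  set S := {t : Fin k → ℕ | (∀ i, x i < t i ∧ t i ≤ x i + N) ∧ Exceptional δ V β Ω t} with hS
  have hfin : S.Finite := by
    refine (Set.finite_Iic (fun i : Fin k => x i + N)).subset ?_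
    intro t ht i
    exact (ht.1 i).2
  rw [Set.ncard_eq_toFinset_card S hfin]
  refine hmain V hV Ω x N hx hN _ fun t ht => ?_
  have ht' : t ∈ S := hfin.mem_toFinset.1 ht
  obtain ⟨hbox, P, h1, h2, h3, l, g, hg, h4⟩ := ht'
  refine ⟨hbox, P, h1, h2, ?_, l, g, fun i a => ?_, ?_⟩
  · rw [point_eq] at h3
    refine (congrArg (fun X => MvPolynomial.aeval (pu (n := fun a => 2 * m a) (fun i => ((Real.log (t i) : ℝ) : ℂ)) X) P)
      ?_).trans h3
    funext i a
    rw [Yt_eq' (β a) (by have := (hbox i).1; omega)]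
  · have h5 : (g i a).transpose * J (β a) * g i a = J (β a) := hg i a
    rw [J_eq] at h5
    exact h5
  · rw [point_eq] at h4
    exact h4

end Pool.Agent.Results.MP_caab05_ag.JointHypergeometric
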